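import Pool.Agent.H948.HS.Stm

/-!
# Project HS, task HG: geometry of the hyperbolic walk
-/

set_option autoImplicit false

namespace Pool.Agent.H878.HS.HG

open MeasureTheory Set Metric
open scoped RealInnerProductSpace
open Pool.Agent.H948.HS

variable {m : ℕ}

/-- the hyperbolic cosine of the distance -/
noncomputable def cc (p q : Pt m) : ℝ :=
  1 + (‖p.1 - q.1‖ ^ 2 + (p.2 - q.2) ^ 2) / (2 * p.2 * q.2)

theorem hdist_eq (p q : Pt m) : hdist p q = Real.arcosh (cc p q) := rfl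

theorem one_le_cc {p q : Pt m} (hp : 0 < p.2) (hq : 0 < q.2) : 1 ≤ cc p q := by
  unfold cc
  have : 0 ≤ (‖p.1 - q.1‖ ^ 2 + (p.2 - q.2) ^ 2) / (2 * p.2 * q.2) := by positivity
  linarith

theorem hdist_nonneg {p q : Pt m} (hp : 0 < p.2) (hq : 0 < q.2) : 0 ≤ hdist p q :=
  Real.arcosh_nonneg (one_le_cc hp hq)

theorem cosh_hdist {p q : Pt m} (hp : 0 < p.2) (hq : 0 < q.2) : Real.cosh (hdist p q) = cc p q :=
  Real.cosh_arcosh (one_le_cc hp hq)

theorem sinh_hdist {p q : Pt m} (hp : 0 < p.2) (hq : 0 < q.2) :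
    Real.sinh (hdist p q) = Real.sqrt (cc p q ^ 2 - 1) :=
  Real.sinh_arcosh (one_le_cc hp hq)

/-! ## The action -/

theorem act_assoc (p q r : Pt m) : act (act p q) r = act p (act q r) := by
  unfold act
  ext1
  · simp only [smul_add, smul_smul, add_assoc]
  · simp only [mul_assoc]

theorem act_one (p : Pt m) : act p (0, 1) = p := by
  unfold act
  ext1
  · simp
  · simp

theorem one_act (p : Pt m) : act (0, 1) p = p := by
  unfold act
  ext1
  · simp
  · simp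

theorem hdist_act {p : Pt m} (hp : 0 < p.2) (q r : Pt m) :
    hdist (act p q) (act p r) = hdist q r := by
  rw [hdist_eq, hdist_eq]
  congr 1
  unfold cc act
  simp only
  have e1 : p.1 + p.2 • q.1 - (p.1 + p.2 • r.1) = p.2 • (q.1 - r.1) := by
    rw [smul_sub]
    abel
  rw [e1, norm_smul, Real.norm_eq_abs, abs_of_pos hp]
  have e2 : (p.2 * ‖q.1 - r.1‖) ^ 2 + (p.2 * q.2 - p.2 * r.2) ^ 2 =
      p.2 ^ 2 * (‖q.1 - r.1‖ ^ 2 + (q.2 - r.2) ^ 2) := by ring
  have e3 : 2 * (p.2 * q.2) * (p.2 * r.2) = p.2 ^ 2 * (2 * q.2 * r.2) := by ring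
  rw [e2, e3, mul_div_mul_left _ _ (by positivity)]

/-! ## The increments -/

theorem coord0_le (x : Sp m) : |(x : E m) 0| ≤ 1 := by
  have := abs_coord_le (x : E m) 0
  rwa [norm_sp] at this

theorem den_pos (ε : ℝ) (x : Sp m) : 0 < Real.cosh ε - Real.sinh ε * (x : E m) 0 := by
  have h1 : Real.sinh ε * (x : E m) 0 ≤ |Real.sinh ε| := by
    calc Real.sinh ε * (x : E m) 0 ≤ |Real.sinh ε * (x : E m) 0| := le_abs_self _
      _ = |Real.sinh ε| * |(x : E m) 0| := abs_mul _ _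
      _ ≤ |Real.sinh ε| * 1 := by gcongr; exact coord0_le x
      _ = _ := mul_one _
  have h2 : |Real.sinh ε| < Real.cosh ε := by
    apply abs_lt_of_sq_lt_sq _ (Real.cosh_pos ε).le
    have := Real.cosh_sq ε
    linarith
  linarith

theorem inc_pos (ε : ℝ) (x : Sp m) : 0 < (inc ε (x : E m)).2 := by
  unfold inc
  exact div_pos one_pos (den_pos ε x)

theorem hor_norm (x : Sp m) :
    ‖(WithLp.toLp 2 fun i : Fin m => (x : E m) i.succ : EuclideanSpace ℝ (Fin m))‖ ^ 2 =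
      1 - ((x : E m) 0) ^ 2 := by
  have h1 : ‖(x : E m)‖ ^ 2 = 1 := by rw [norm_sp]; norm_num
  rw [EuclideanSpace.norm_sq_eq] at h1 ⊢
  rw [Fin.sum_univ_succ] at h1
  simp only [Real.norm_eq_abs, sq_abs] at h1 ⊢
  linarith

theorem hdist_inc {ε : ℝ} (hε : 0 ≤ ε) (x : Sp m) :
    hdist (0, 1) (inc ε (x : E m)) = ε := by
  rw [hdist_eq]
  have h : cc (0, 1) (inc ε (x : E m)) = Real.cosh ε := by
    unfold cc inc
    simp only [zero_sub, norm_neg]
    rw [norm_smul, mul_pow, hor_norm, Real.norm_eq_abs, sq_abs]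
    have hd := den_pos ε x
    set δ := Real.cosh ε - Real.sinh ε * (x : E m) 0 with hδ
    have hc := Real.cosh_sq ε
    field_simp
    rw [hδ]
    ring_nf
    ring_nf at hc
    nlinarith [hc]
  rw [h, Real.arcosh_cosh hε]

/-! ## The walk -/

theorem X_pos (ε : ℝ) (u : Om m) (n : ℕ) : 0 < (X ε u n).2 := by
  induction n with
  | zero => exact one_pos
  | succ n ih => exact mul_pos ih (inc_pos ε (u n))

theorem X_add (ε : ℝ) (u : Om m) (i k : ℕ) :
    X ε u (i + k) = act (X ε u i) (X ε (shift i u) k) := by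
  induction k with
  | zero => exact (act_one _).symm
  | succ k ih =>
    change act (X ε u (i + k)) (inc ε (u (i + k) : E m)) =
      act (X ε u i) (act (X ε (shift i u) k) (inc ε (shift i u k : E m)))
    rw [ih, act_assoc]
    rfl

theorem hdist_X {ε : ℝ} (hε : 0 < ε) (u : Om m) {i j : ℕ} (hij : i ≤ j) :
    hdist (X ε u i) (X ε u j) = ε * Dn ε (shift i u) (j - i) := by
  obtain ⟨k, rfl⟩ := Nat.exists_eq_add_of_le hij
  rw [Nat.add_sub_cancel_left, X_add]
  conv_lhs => rw [← act_one (X ε u i)]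
  rw [act_assoc, one_act, hdist_act (X_pos ε u i)]
  unfold Dn
  field_simp

theorem cc_one (p : Pt m) (hp : 0 < p.2) :
    cc (0, 1) p = (‖p.1‖ ^ 2 + 1 + p.2 ^ 2) / (2 * p.2) := by
  unfold cc
  simp only [zero_sub, norm_neg]
  field_simp
  ring

theorem abs_log_le (p : Pt m) (hp : 0 < p.2) : |Real.log p.2| ≤ hdist (0, 1) p := by
  rw [hdist_eq, ← Real.arcosh_cosh (abs_nonneg (Real.log p.2)), Real.cosh_abs]
  rw [Real.arcosh_le_arcosh (Real.cosh_pos _) (lt_of_lt_of_le one_pos (one_le_cc one_pos hp))]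
  rw [cc_one p hp, Real.cosh_log hp]
  rw [div_le_div_iff₀ (by norm_num) (by positivity)]
  have : 0 ≤ ‖p.1‖ ^ 2 := by positivity
  have e : (p.2 + p.2⁻¹) * (2 * p.2) = 2 * p.2 ^ 2 + 2 := by field_simp
  rw [e]
  linarith

/-- the triangle inequality -/
theorem tri {p r : Pt m} (hp : 0 < p.2) (hr : 0 < r.2) :
    hdist (0, 1) (act p r) ≤ hdist (0, 1) p + hdist (0, 1) r := by
  have h1 : (0 : ℝ) < ((0, 1) : Pt m).2 := one_pos
  have hpr : 0 < (act p r).2 := mul_pos hp hr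
  have hs : 0 ≤ hdist (0, 1) p + hdist (0, 1) r :=
    add_nonneg (hdist_nonneg h1 hp) (hdist_nonneg h1 hr)
  rw [← Real.arcosh_cosh hs, hdist_eq,
    Real.arcosh_le_arcosh (lt_of_lt_of_le one_pos (one_le_cc h1 hpr)) (Real.cosh_pos _),
    Real.cosh_add, cosh_hdist h1 hp, cosh_hdist h1 hr, sinh_hdist h1 hp, sinh_hdist h1 hr,
    cc_one _ hpr, cc_one p hp, cc_one r hr]
  obtain ⟨b, a⟩ := p
  obtain ⟨b', a'⟩ := r
  simp only at hp hr
  simp only [act]
  -- the inner product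
  have hin : ⟪b, b'⟫ ≤ ‖b‖ * ‖b'‖ := real_inner_le_norm b b'
  have hexp : ‖b + a • b'‖ ^ 2 = ‖b‖ ^ 2 + 2 * a * ⟪b, b'⟫ + a ^ 2 * ‖b'‖ ^ 2 := by
    rw [norm_add_sq_real, inner_smul_right, norm_smul, Real.norm_eq_abs, abs_of_pos hp]
    ring
  rw [hexp]
  set U := ⟪b, b'⟫
  set k := ‖b‖
  set k' := ‖b'‖
  set s := (a ^ 2 - k ^ 2 - 1) / (2 * a) with hsdef
  set t := (k' ^ 2 + a' ^ 2 - 1) / (2 * a') with htdef
  have e1 : ((k ^ 2 + 1 + a ^ 2) / (2 * a)) ^ 2 - 1 = k ^ 2 + s ^ 2 := by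
    rw [hsdef]
    field_simp
    ring
  have e2 : ((k' ^ 2 + 1 + a' ^ 2) / (2 * a')) ^ 2 - 1 = (k' / a') ^ 2 + t ^ 2 := by
    rw [htdef]
    field_simp
    ring
  rw [e1, e2, ← Real.sqrt_mul (by positivity)]
  have e3 : (k ^ 2 + 2 * a * U + a ^ 2 * k' ^ 2 + 1 + (a * a') ^ 2) / (2 * (a * a')) =
      (k ^ 2 + 1 + a ^ 2) / (2 * a) * ((k' ^ 2 + 1 + a' ^ 2) / (2 * a')) + (U / a' + s * t) := by
    rw [hsdef, htdef]
    field_simp
    ring
  rw [e3]
  have h5 : U / a' + s * t ≤ k * (k' / a') + s * t := by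
    have : U / a' ≤ k * k' / a' := by gcongr
    have e : k * (k' / a') = k * k' / a' := by ring
    linarith
  have h6 : k * (k' / a') + s * t ≤ Real.sqrt ((k ^ 2 + s ^ 2) * ((k' / a') ^ 2 + t ^ 2)) := by
    apply Real.le_sqrt_of_sq_le
    have : 0 ≤ (k * t - s * (k' / a')) ^ 2 := sq_nonneg _
    nlinarith
  linarith

theorem s_hg : S_HG := by
  intro m ε hε
  refine ⟨fun u n => X_pos ε u n, fun u i j hij => hdist_X hε u hij, fun u n => ⟨?_, ?_⟩,
    fun u a b => ?_, fun u a b => ?_, fun u => ⟨?_, ?_⟩⟩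
  · exact div_nonneg (hdist_nonneg one_pos (X_pos ε u n)) hε.le
  · unfold Hn Dn
    rw [abs_div, abs_of_pos hε]
    exact div_le_div_of_nonneg_right (abs_log_le _ (X_pos ε u n)) hε.le
  · unfold Hn
    rw [X_add, ← add_div]
    congr 1
    exact Real.log_mul (X_pos ε u a).ne' (X_pos ε (shift a u) b).ne'
  · unfold Dn
    rw [X_add, ← add_div]
    exact div_le_div_of_nonneg_right (tri (X_pos ε u a) (X_pos ε (shift a u) b)) hε.le
  · unfold Dn
    change hdist (0, 1) (0, 1) / ε = 0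
    rw [hdist_eq]
    unfold cc
    simp
  · unfold Dn
    change hdist (0, 1) (act (0, 1) (inc ε (u 0 : E m))) / ε = 1
    rw [one_act, hdist_inc hε.le]
    exact div_self hε.ne'

end Pool.Agent.H878.HS.HG
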